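import Mathlib
import Pool.Agent.Q249.QuasiDensityDefs
import Pool.Agent.Q249.CoverDarboux

/-!
The weak Darboux property fails for induced quasi-densities.
-/

namespace Pool.Agent.Results.MP_52e7c8_nt.WeakDarbouxFails

open Q249.QD

/-- On each `H ∈ {ℤ, ℕ, ℕ⁺}` there is an upper density `μ*` (in particular an upper quasi-density)
and a set `X ⊆ H` in the domain of the induced density with `μ(X) = 1/2`, such that every `Y ⊆ X` in
the domain has `μ(Y) ∈ {0, 1/2}`. -/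
theorem result : ∀ H : Set ℤ, (H = Set.univ ∨ H = NN ∨ H = PP) →
    ∃ μ : Set ℤ → ℝ, IsUpperDensity H μ ∧ ∃ X : Set ℤ, X ⊆ H ∧ μ X + μ (H \ X) = 1 ∧
      μ X = 1 / 2 ∧ ∀ Y : Set ℤ, Y ⊆ X → μ Y + μ (H \ Y) = 1 → μ Y = 0 ∨ μ Y = 1 / 2 :=
  Q249.Cover.darboux_fails

end Pool.Agent.Results.MP_52e7c8_nt.WeakDarbouxFails
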